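import Pool.Agent.Q195.Bridge.Main

/-!
# MP_699bc8_an: the Bridge Theorem for amenable monoid actions on compact abelian groups
-/

open Filter Topology Q195.Bridge

namespace Pool.Agent.Results.MP_699bc8_an.BridgeTheorem

universe u v w

/-- Let `S` be a cancellative monoid acting on the left (action `γ`) on a compact Hausdorff abelian
group `K` by continuous endomorphisms, and let `F` be a left Folner net of `S`. Then the topological
entropy of `γ` is the algebraic entropy of the dual action: for the versions with upper limits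
along `F`, for the versions with lower limits along `F`, and for the versions with limits. -/
theorem result {S : Type v} [Monoid S] [IsCancelMul S] {K : Type u} [CommGroup K]
    [TopologicalSpace K] [IsTopologicalGroup K] [CompactSpace K] [T2Space K]
    (γ : S → (K →ₜ* K)) (_hγ1 : γ 1 = ContinuousMonoidHom.id K)
    (_hγ : ∀ s t : S, γ (s * t) = (γ s).comp (γ t))
    {I : Type w} (l : Filter I) [l.NeBot] (F : I → Finset S) (hF : IsLeftFolner l F) :
    hTopSup l F γ = hAlgSup l F γ ∧ hTopInf l F γ = hAlgInf l F γ ∧
      ∀ (a : Set (Set K) → ℝ) (b : Finset (K →ₜ* Circle) → ℝ),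
        (∀ 𝒰, IsFinOpenCover 𝒰 →
          Tendsto (fun i => Real.log (coverNumber γ 𝒰 (F i)) / (F i).card) l (𝓝 (a 𝒰))) →
        (∀ X : Finset (K →ₜ* Circle), X.Nonempty →
          Tendsto (fun i => Real.log (T γ (F i) X).ncard / (F i).card) l (𝓝 (b X))) →
        (⨆ (𝒰 : Set (Set K)) (_ : IsFinOpenCover 𝒰), (a 𝒰 : EReal)) =
          ⨆ (X : Finset (K →ₜ* Circle)) (_ : X.Nonempty), (b X : EReal) :=
  ⟨sup_eq γ l hF.nonempty, inf_eq γ l hF.nonempty, fun a b ha hb =>
    lim_eq γ l hF.nonempty a b ha hb⟩

end Pool.Agent.Results.MP_699bc8_an.BridgeTheorem
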